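import Pool.Agent.N375.AV.D
import Pool.Agent.Results.MP_4a0cc8_nt.PartnerWindows

/-!
# No congruences with a given curve for the invariants with height near the values of compositions of additive functions

Let `F = f_1 ∘ ⋯ ∘ f_k` be a composition of functions dominated by the largest prime factor: for example additive functions
`f` with `f (q ^ j) ≤ C q ^ j` at the prime powers and different values at different large primes (the sum of the prime
factors, with or without multiplicity), the largest prime factor itself, and Kempner's function. Let `D ≥ 1`, `θ < 1` and let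
`n` be the degree of the number fields considered. There is a number `n₀`, which depends on `n`, `D` and `θ` only, with the
following property: for EVERY number field `K` of degree `n`, EVERY elliptic curve `E₀ : y² = x³ + A₀x + B₀`, `A₀`, `B₀` in
the integers of `K`, and all `α > 0`, for all `m ≤ N` but `K₀ N exp (- c₀ (log N) ^ (1 / (k + 1)))`, NO elliptic curve `E` over
`K` for which the height of the invariant satisfies `|H(j(E)) - α F(m) ^ D| ≤ F(m) ^ θ` is congruent to `E₀` modulo some
`l ≥ n₀`. More generally `G (F m)` takes the place of `α F(m) ^ D`, where `G` is any function with steps bounded below by a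
positive constant and growth at most `v ^ D`. The number `F(m)` is in general much smaller than `m` and the values of `F` are
taken with very large multiplicities, and so this does not follow from the size of the set of the invariants of the
congruent curves.

The number of the invariants of height at most `X` of the curves congruent to `E₀` modulo some `k ≥ n₀` is at most `C X ^ ε` by
the starting theorem `FewPartnersAllLevels` of this problem (in the form `partners_count` of `PartnerWindows`). The preimage of a thin set under a function dominated by the largest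
prime factor is thin (tool of helper375, `N375/AV`).
-/

set_option autoImplicit false

namespace Pool.Agent.Results.MP_4a0cc8_nt.AdditiveValues

open Pool.Agent.N733.TG (Expanding expanding_pow)
open Pool.Agent.N375.AV (PD comp windows pd_additive pd_sopfr pd_largest pd_kempner)
open NumberField
open Pool.Agent.Results.MP_4a0cc8_nt.FewPartnersAllLevels (Congruent jInvariant)
open Pool.Agent.Results.MP_4a0cc8_nt.PartnerWindows (Partners partners_count)

/-- **No congruences near the values of compositions of additive functions.** For all `n`, `D ≥ 1` and `0 ≤ θ < 1` there is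
`n₀` such that for all compositions `F = f_1 ∘ ⋯ ∘ f_k` of functions dominated by the largest prime factor, all `G` with steps
`≥ a > 0` and growth at most `v ^ D`, all number fields `K` of degree `n` and all elliptic curves `E₀ : y² = x³ + A₀x + B₀`
with `A₀`, `B₀` integral there are `c₀ > 0` and `K₀` such that for every `N ≥ 1`, for all `m ≤ N` but
`K₀ N exp (- c₀ (log N) ^ (1 / (k + 1)))`, NO elliptic curve `E : y² = x³ + Ax + B` over `K` with
`|H(j(E)) - G (F m)| ≤ F(m) ^ θ` satisfies `E[l] ≅ E₀[l]` for some `l ≥ n₀`. The additive functions with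
`f (q ^ j) ≤ C q ^ j` which are injective at the large primes, the sum of the prime factors with multiplicity, the largest
prime factor and Kempner's function are examples of such functions `f_i`, and `α v ^ D` with `α > 0`, `D ≥ 1` is an example
of `G`. -/
theorem result :
    (∀ (n : ℕ) (D θ : ℝ), 1 ≤ D → 0 ≤ θ → θ < 1 → ∃ n₀ : ℕ, ∀ fs : List (ℕ → ℕ), (∀ f ∈ fs, PD f) →
      ∀ G : ℕ → ℝ, Expanding G D → ∀ (K : Type) [Field K] [NumberField K], Module.finrank ℚ K = n →
      ∀ A₀ B₀ : 𝓞 K, 4 * A₀ ^ 3 + 27 * B₀ ^ 2 ≠ 0 → ∃ c₀ K₀ : ℝ, 0 < c₀ ∧ ∀ N : ℕ, 1 ≤ N →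
      ({m : ℕ | 1 ≤ m ∧ m ≤ N ∧ ¬ ∀ A B : K, 4 * A ^ 3 + 27 * B ^ 2 ≠ 0 →
        |Height.mulHeight₁ (jInvariant A B) - G (comp fs m)| ≤ (comp fs m : ℝ) ^ θ →
          ∀ l : ℕ, n₀ ≤ l → ¬ Congruent l A B (A₀ : K) (B₀ : K)}.ncard : ℝ) ≤
        K₀ * N * Real.exp (-(c₀ * Real.log N ^ ((1 : ℝ) / (fs.length + 1))))) ∧
    ((∀ f : ℕ → ℕ, (∀ a b : ℕ, Nat.Coprime a b → f (a * b) = f a + f b) →
        (∃ C : ℕ, ∀ q j : ℕ, q.Prime → 1 ≤ j → f (q ^ j) ≤ C * q ^ j) →
        (∃ P : ℕ, ∀ p q : ℕ, p.Prime → q.Prime → P ≤ p → P ≤ q → f p = f q → p = q) → PD f) ∧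
      PD (fun n => n.primeFactorsList.sum) ∧ PD (fun n => n.primeFactors.sup id) ∧
      PD (fun n => sInf {k : ℕ | n ∣ k.factorial})) ∧
    ∀ α d : ℝ, 0 < α → 1 ≤ d → Expanding (fun v => α * (v : ℝ) ^ d) d := by
  refine ⟨fun n D θ hD hθ hθ1 => ?_, ⟨fun _ h1 h2 h3 => pd_additive h1 h2 h3, pd_sopfr, pd_largest, pd_kempner⟩, fun α d hα hd => expanding_pow hα hd⟩
  obtain ⟨ε, hε⟩ : ∃ ε, ε = (1 - θ) / (2 * D) := ⟨_, rfl⟩
  have hε0 : 0 < ε := by
    rw [hε]
    apply div_pos (by linarith) (by linarith)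
  have hεD : D * ε = (1 - θ) / 2 := by
    rw [hε]
    field_simp
  obtain ⟨n₀, h⟩ := partners_count n ε hε0
  refine ⟨n₀, fun fs hfs G hG K _ _ hK A₀ B₀ h0 => ?_⟩
  obtain ⟨C, hC, h'⟩ := h K hK A₀ B₀ h0
  obtain ⟨c₀, K₀, hc₀, hN₀⟩ := windows (Partners n₀ (A₀ : K) (B₀ : K)) (fun x => Height.mulHeight₁ x) fs hfs hG (s := ε)
    (κ := θ) hε0.le hθ (by rw [hεD]; linarith) (fun η hη => by
      refine ⟨C, fun X hX => ⟨(h' X hX).1, (h' X hX).2.trans ?_⟩⟩
      apply mul_le_mul_of_nonneg_left _ hC
      exact Real.rpow_le_rpow_of_exponent_le hX (by linarith))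
  refine ⟨c₀, K₀, hc₀, fun N hN => le_trans ?_ (hN₀ N hN)⟩
  have hfin : {m : ℕ | 1 ≤ m ∧ m ≤ N ∧ ∃ x ∈ Partners n₀ (A₀ : K) (B₀ : K),
      |Height.mulHeight₁ x - G (comp fs m)| ≤ (comp fs m : ℝ) ^ θ}.Finite := by
    apply (Set.finite_Icc 1 N).subset
    intro m hm
    exact ⟨hm.1, hm.2.1⟩
  have hsub : {m : ℕ | 1 ≤ m ∧ m ≤ N ∧ ¬ ∀ A B : K, 4 * A ^ 3 + 27 * B ^ 2 ≠ 0 →
        |Height.mulHeight₁ (jInvariant A B) - G (comp fs m)| ≤ (comp fs m : ℝ) ^ θ →
          ∀ l : ℕ, n₀ ≤ l → ¬ Congruent l A B (A₀ : K) (B₀ : K)} ⊆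
      {m : ℕ | 1 ≤ m ∧ m ≤ N ∧ ∃ x ∈ Partners n₀ (A₀ : K) (B₀ : K),
        |Height.mulHeight₁ x - G (comp fs m)| ≤ (comp fs m : ℝ) ^ θ} := by
    rintro m ⟨h1, h2, h3⟩
    push Not at h3
    obtain ⟨A, B, hAB, hw, l, hl, hcon⟩ := h3
    exact ⟨h1, h2, jInvariant A B, ⟨A, B, hAB, rfl, l, hl, hcon⟩, hw⟩
  exact_mod_cast Set.ncard_le_ncard hsub hfin

end Pool.Agent.Results.MP_4a0cc8_nt.AdditiveValues
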