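import Pool.Agent.K6.H40.RandNear
import Pool.Agent.Results.MP_4a0cc8_nt.PartnerWindows

/-!
# No congruences with a given curve for the invariants with height near the elements of random sets

Let `A` be a random set of positive integers such that `m` belongs to `A` with probability at most `M m ^ (-γ)` (no
independence is assumed). Let `G` be a function with steps bounded below by a positive constant and growth at most `v ^ D`
(`D` is arbitrary), for example `a v ^ D`, and `0 ≤ θ < γ`, `θ ≤ 1`. There is a number `n₀`, which depends on the degree of the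
number field, `D`, `θ` and `γ` only, with the following property: almost surely, for EVERY elliptic curve
`E₀ : y² = x³ + A₀x + B₀` over `K`, `A₀`, `B₀` integral, for all but finitely many `m ∈ A`, NO elliptic curve `E` over `K` with
`|H(j(E)) - G m| ≤ m ^ θ` is congruent to `E₀` modulo some `l ≥ n₀`. So the random sets may have `X ^ (1 - θ - ε)` elements up
to `X`.

The number of the invariants of height at most `X` of the curves congruent to `E₀` modulo some `k ≥ n₀` is at most `C X ^ ε` by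
the starting theorem `FewPartnersAllLevels` of this problem (in the form `partners_count` of `PartnerWindows`). So the `m` such that there is one of them near `G m` form a set with
`O (X ^ (D ε + θ))` elements up to `X` (`N671/DA` of helper671), and the lemma of Borel and Cantelli applies
(`K6/H40/RandNear`).
-/

set_option autoImplicit false

namespace Pool.Agent.Results.MP_4a0cc8_nt.RandomSets

open MeasureTheory
open Pool.Agent.N671.DA (Expanding expanding_pow)
open Pool.Agent.K6.H40.RandNear (Sparse rand_windows)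
open NumberField
open Pool.Agent.Results.MP_4a0cc8_nt.FewPartnersAllLevels (Congruent jInvariant)
open Pool.Agent.Results.MP_4a0cc8_nt.PartnerWindows (Partners partners_count)

/-- **No congruences near the elements of random sets.** For all `n`, `D ≥ 1`, `0 ≤ θ ≤ 1` and `γ > θ` there is `n₀` such
that for all `G` with steps `≥ a > 0` and growth at most `v ^ D`, all number fields `K` of degree `n` and all random sets `A` of
positive integers with `P (m ∈ A) ≤ M m ^ (-γ)` (`Sparse P A γ M`), almost surely, for all elliptic curves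
`E₀ : y² = x³ + A₀x + B₀` with `A₀`, `B₀` integral, for all large `m ∈ A`, no elliptic curve `E : y² = x³ + Ax + B` over `K` with
`|H(j(E)) - G m| ≤ m ^ θ` satisfies `E[l] ≅ E₀[l]` for some `l ≥ n₀`. The functions `α v ^ D` with `α > 0`, `D ≥ 1` are
examples of `G`. -/
theorem result :
    (∀ (n : ℕ) (D θ γ : ℝ), 1 ≤ D → 0 ≤ θ → θ ≤ 1 → θ < γ → ∃ n₀ : ℕ, ∀ G : ℕ → ℝ, Expanding G D →
      ∀ (K : Type) [Field K] [NumberField K], Module.finrank ℚ K = n →
      ∀ (Ω : Type) [MeasurableSpace Ω] (P : Measure Ω) (A : Ω → Set ℕ) (M : ℝ), Sparse P A γ M →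
      ∀ᵐ ω ∂P, ∀ A₀ B₀ : 𝓞 K, 4 * A₀ ^ 3 + 27 * B₀ ^ 2 ≠ 0 → ∃ N : ℕ, ∀ m ∈ A ω, N ≤ m →
        ∀ a b : K, 4 * a ^ 3 + 27 * b ^ 2 ≠ 0 → |Height.mulHeight₁ (jInvariant a b) - G m| ≤ (m : ℝ) ^ θ →
          ∀ l : ℕ, n₀ ≤ l → ¬ Congruent l a b (A₀ : K) (B₀ : K)) ∧
    ∀ α D : ℝ, 0 < α → 1 ≤ D → Expanding (fun v => α * (v : ℝ) ^ D) D := by
  refine ⟨fun n D θ γ hD hθ hθ1 hγ => ?_, fun α D hα hD => expanding_pow hα hD⟩
  obtain ⟨ε, hε⟩ : ∃ ε, ε = (γ - θ) / (2 * D) := ⟨_, rfl⟩
  have hε0 : 0 < ε := by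
    rw [hε]
    apply div_pos (by linarith) (by linarith)
  have hεD : D * ε = (γ - θ) / 2 := by
    rw [hε]
    field_simp
  obtain ⟨n₀, h⟩ := partners_count n ε hε0
  refine ⟨n₀, fun G hG K _ _ hK Ω _ P A M hA => ?_⟩
  have hKc : Countable K := (Module.finBasis ℚ K).equivFun.injective.countable
  have hcnt : Countable (𝓞 K) := (RingOfIntegers.coe_injective (K := K)).countable
  have h1 : ∀ e : 𝓞 K × 𝓞 K, ∀ᵐ ω ∂P, 4 * e.1 ^ 3 + 27 * e.2 ^ 2 ≠ 0 → ∃ N : ℕ, ∀ m ∈ A ω, N ≤ m →
      ∀ x ∈ Partners n₀ (e.1 : K) (e.2 : K), ¬ |Height.mulHeight₁ x - G m| ≤ (m : ℝ) ^ θ := by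
    intro e
    by_cases he : 4 * e.1 ^ 3 + 27 * e.2 ^ 2 ≠ 0
    · obtain ⟨C, hC, h'⟩ := h K hK e.1 e.2 he
      filter_upwards [(rand_windows (Partners n₀ (e.1 : K) (e.2 : K)) (fun x => Height.mulHeight₁ x) hG (s := ε) (κ := θ)
        hε0.le hθ hθ1 (fun η hη => by
          refine ⟨C, fun X hX => ⟨(h' X hX).1, (h' X hX).2.trans ?_⟩⟩
          apply mul_le_mul_of_nonneg_left _ hC
          exact Real.rpow_le_rpow_of_exponent_le hX (by linarith)) hA).1 (by rw [hεD]; linarith)] with ω hω _
      exact hω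
    · exact Filter.Eventually.of_forall (fun ω he' => absurd he' he)
  filter_upwards [ae_all_iff.2 h1] with ω hω A₀ B₀ h0
  obtain ⟨N, hN⟩ := hω (A₀, B₀) h0
  exact ⟨N, fun m hm hNm a b hab hw l hl hcon => hN m hm hNm (jInvariant a b) ⟨a, b, hab, rfl, l, hl, hcon⟩ hw⟩

end Pool.Agent.Results.MP_4a0cc8_nt.RandomSets
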