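import Pool.Agent.N671.DA.Win
import Pool.Agent.Results.MP_4a0cc8_nt.PartnerWindows

/-!
# No congruences with a given curve for the invariants with height near the denominators of good approximations

Let `α_1, …, α_r` be real numbers. We consider the natural numbers `q` with `‖q α_j - β_j‖ ≤ c q ^ (-τ)` for all `j`, `‖x‖`
the distance to the nearest integer; for `β = 0`, `c = 1`, `τ = 1 / r` these include the denominators of all best
simultaneous approximations (the denominators of the convergents for `r = 1`). Let `G` be a function with steps bounded below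
by a positive constant and growth at most `v ^ D` (`D` is arbitrary), for example `a v ^ D`, and `0 ≤ θ ≤ 1`. For all `α` in
`ℝ^r` outside a set of Hausdorff dimension at most `(r + θ) / (1 + τ)` there is `n₀` with the following property: for EVERY
elliptic curve `E₀ : y² = x³ + A₀x + B₀` over `K`, `A₀`, `B₀` integral, and all `c`, for all but finitely many such `q`, NO
elliptic curve `E` over `K` with `|H(j(E)) - G q| ≤ q ^ θ` is congruent to `E₀` modulo some `l ≥ n₀`. For `τ = 1 / r` and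
`θ < 1` the bound is less than `r`; and so the statement holds for almost all `α`.

The number of the invariants of height at most `X` of the curves congruent to `E₀` modulo some `k ≥ n₀` is at most `C X ^ ε` by
the starting theorem `FewPartnersAllLevels` of this problem (in the form `partners_count` of `PartnerWindows`). So the `q` such that there is one of them near `G q` form a set with
`O (X ^ (D ε + θ))` elements up to `X`; and the `α` with `‖q α_j - β_j‖ ≤ c q ^ (-τ)` for all `j` and infinitely many `q` of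
such a set are covered by few small cubes (tool of helper671, `N671/DA`).
-/

set_option autoImplicit false

namespace Pool.Agent.Results.MP_4a0cc8_nt.SimultaneousApproximations

open Filter Topology
open scoped ENNReal
open Pool.Agent.N671.DA (Solves Expanding expanding_pow approx_windows)
open NumberField
open Pool.Agent.Results.MP_4a0cc8_nt.FewPartnersAllLevels (Congruent jInvariant)
open Pool.Agent.Results.MP_4a0cc8_nt.PartnerWindows (Partners partners_count)

/-- **No congruences near the denominators of good approximations.** Let `K` be a number field, `G` a function with steps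
`≥ a > 0` and growth at most `v ^ D`, `0 ≤ θ ≤ 1`, `β` in `ℝ^r` and `τ > 0`. There is a set `E` of Hausdorff dimension at most
`(r + θ) / (1 + τ)` such that for each `α` in `ℝ^r` outside `E` there is `n₀` with the following property: for EVERY elliptic
curve `E₀ : y² = x³ + A₀x + B₀` over `K`, `A₀`, `B₀` integral, and all `c`, for all large `q` with
`‖q α_j - β_j‖ ≤ c q ^ (-τ)` for all `j` (`Solves α β q (c q ^ (-τ))`), no elliptic curve `y² = x³ + Ax + B` over `K` with
`|H(j) - G q| ≤ q ^ θ` is congruent to `E₀` modulo some `l ≥ n₀`. For `τ = 1 / r` and `θ < 1` the bound for the dimension is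
less than `r`. The functions `a v ^ D` with `a > 0`, `D ≥ 1` are examples of `G`. -/
theorem result :
    (∀ (K : Type) [Field K] [NumberField K] (G : ℕ → ℝ) (D : ℝ), Expanding G D → ∀ θ : ℝ, 0 ≤ θ → θ ≤ 1 →
      ∀ (r : ℕ) (β : Fin r → ℝ) (τ : ℝ), 0 < τ →
      ∃ E : Set (Fin r → ℝ), dimH E ≤ ENNReal.ofReal ((r + θ) / (1 + τ)) ∧ ∀ α, α ∉ E → ∃ n₀ : ℕ,
        ∀ A₀ B₀ : 𝓞 K, 4 * A₀ ^ 3 + 27 * B₀ ^ 2 ≠ 0 → ∀ c : ℝ, ∃ Q : ℕ, ∀ q : ℕ, Q ≤ q →
          Solves α β q (c * (q : ℝ) ^ (-τ)) → ∀ A B : K, 4 * A ^ 3 + 27 * B ^ 2 ≠ 0 →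
          |Height.mulHeight₁ (jInvariant A B) - G q| ≤ (q : ℝ) ^ θ →
            ∀ l : ℕ, n₀ ≤ l → ¬ Congruent l A B (A₀ : K) (B₀ : K)) ∧
    (∀ (r : ℕ) (s : ℝ), 1 ≤ r → s < 1 → ((r : ℝ) + s) / (1 + 1 / (r : ℝ)) < r) ∧
    ∀ α D : ℝ, 0 < α → 1 ≤ D → Expanding (fun v => α * (v : ℝ) ^ D) D := by
  classical
  refine ⟨fun K _ _ G D hG θ hθ hθ1 r β τ hτ => ?_, fun r s hr hs => ?_, fun α d hα hd => expanding_pow hα hd⟩
  · have hD := hG.one_le
    have hK : Countable K := (Module.finBasis ℚ K).equivFun.injective.countable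
    have hcnt : Countable (𝓞 K) := (RingOfIntegers.coe_injective (K := K)).countable
    have hall : ∀ j : ℕ, ∃ (n₀ : ℕ) (Z : 𝓞 K × 𝓞 K → Set (Fin r → ℝ)),
        ∀ e : 𝓞 K × 𝓞 K, dimH (Z e) ≤ ENNReal.ofReal ((r + (D * (1 / ((j : ℝ) + 1)) + θ)) / (1 + τ)) ∧
        ∀ α, α ∉ Z e → 4 * e.1 ^ 3 + 27 * e.2 ^ 2 ≠ 0 → ∀ c : ℝ, ∃ Q : ℕ, ∀ q : ℕ, Q ≤ q →
          Solves α β q (c * (q : ℝ) ^ (-τ)) → ∀ x ∈ Partners n₀ (e.1 : K) (e.2 : K),
            ¬ |Height.mulHeight₁ x - G q| ≤ (q : ℝ) ^ θ := by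
      intro j
      obtain ⟨n₀, h⟩ := partners_count (Module.finrank ℚ K) (1 / ((j : ℝ) + 1)) (by positivity)
      have hone : ∀ e : 𝓞 K × 𝓞 K, ∃ Z : Set (Fin r → ℝ),
          dimH Z ≤ ENNReal.ofReal ((r + (D * (1 / ((j : ℝ) + 1)) + θ)) / (1 + τ)) ∧
          ∀ α, α ∉ Z → 4 * e.1 ^ 3 + 27 * e.2 ^ 2 ≠ 0 → ∀ c : ℝ, ∃ Q : ℕ, ∀ q : ℕ, Q ≤ q →
            Solves α β q (c * (q : ℝ) ^ (-τ)) → ∀ x ∈ Partners n₀ (e.1 : K) (e.2 : K),
              ¬ |Height.mulHeight₁ x - G q| ≤ (q : ℝ) ^ θ := by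
        intro e
        by_cases he : 4 * e.1 ^ 3 + 27 * e.2 ^ 2 ≠ 0
        · obtain ⟨C, hC, h'⟩ := h K rfl e.1 e.2 he
          obtain ⟨Z, h3, h4⟩ := approx_windows (Partners n₀ (e.1 : K) (e.2 : K)) (fun x => Height.mulHeight₁ x) hG
            (s := 1 / ((j : ℝ) + 1)) (κ := θ) (by positivity) hθ hθ1 (fun ε hε => by
              refine ⟨C, fun X hX => ⟨(h' X hX).1, (h' X hX).2.trans ?_⟩⟩
              apply mul_le_mul_of_nonneg_left _ hC
              exact Real.rpow_le_rpow_of_exponent_le hX (by linarith)) β hτ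
          exact ⟨Z, h3, fun α hα _ => h4 α hα⟩
        · exact ⟨∅, by simp, fun α _ he' => absurd he' he⟩
      choose Z hZ using hone
      exact ⟨n₀, Z, hZ⟩
    choose n₀ Z hZ using hall
    have hlim : Tendsto (fun m : ℕ => ENNReal.ofReal ((r + (D * (1 / ((m : ℝ) + 1)) + θ)) / (1 + τ))) atTop
        (𝓝 (ENNReal.ofReal ((r + (D * 0 + θ)) / (1 + τ)))) :=
      ENNReal.tendsto_ofReal ((((tendsto_one_div_add_atTop_nhds_zero_nat.const_mul D).add_const θ).const_add (r : ℝ)).div_const
        (1 + τ))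
    rw [mul_zero, zero_add] at hlim
    refine ⟨⋂ m, ⋃ e, Z m e, ge_of_tendsto' hlim fun m => (dimH_mono (Set.iInter_subset _ m)).trans ?_,
      fun α hαE => ?_⟩
    · rw [dimH_iUnion]
      exact iSup_le fun e => (hZ m e).1
    · rw [Set.mem_iInter] at hαE
      push Not at hαE
      obtain ⟨j, hj⟩ := hαE
      rw [Set.mem_iUnion] at hj
      push Not at hj
      refine ⟨n₀ j, fun A₀ B₀ h0 c => ?_⟩
      obtain ⟨Q, hQ⟩ := (hZ j (A₀, B₀)).2 α (hj (A₀, B₀)) h0 c
      exact ⟨Q, fun q hq hs A B hAB hw l hl hcon => hQ q hq hs (jInvariant A B) ⟨A, B, hAB, rfl, l, hl, hcon⟩ hw⟩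
  · have hm0 : (0 : ℝ) < r := by exact_mod_cast (by omega : 0 < r)
    rw [div_lt_iff₀ (by positivity)]
    field_simp
    nlinarith

end Pool.Agent.Results.MP_4a0cc8_nt.SimultaneousApproximations
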