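import Pool.Agent.N760.IT.C
import Pool.Agent.Results.MP_4a0cc8_nt.PartnerWindows

/-!
# No congruences with a given curve for the invariants with height near the members of almost all orbits of Euler's function

Let `φ_k` be the `k`-th iterate of Euler's function, `φ_0(m) = m`. Let `f` be a positive multiplicative function of at most
polynomial growth such that `f p ≤ M p` for the large primes `p`, with different values at different large primes; for
example the identity, Euler's function or the sum of the divisors. Let `D ≥ 1`, `θ < 1` and let `n` be the degree of the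
number fields considered. There is a number `n₀`, which depends on `n`, `D` and `θ` only, with the following property: for
EVERY number field `K` of degree `n`, EVERY elliptic curve `E₀ : y² = x³ + A₀x + B₀`, `A₀`, `B₀` in the integers of `K`, and
all `α > 0`, there is `J(m)` tending to infinity such that for almost all `m`, for all `k ≤ J(m)`, with `v = f(φ_k(m))`, NO
elliptic curve `E` over `K` with `|H(j(E)) - α v ^ D| ≤ v ^ θ` is congruent to `E₀` modulo some `l ≥ n₀`. More generally
`G v` takes the place of `α v ^ D`, where `G` is any function with steps bounded below by a positive constant and growth at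
most `v ^ D`. The iterates of Euler's function are not multiplicative, and so this does not follow from the starting theorem
`MultiplicativeValues` of this problem.

The number of the invariants of height at most `X` of the curves congruent to `E₀` modulo some `k ≥ n₀` is at most `C X ^ ε` by
the starting theorem `FewPartnersAllLevels` of this problem (in the form `partners_count` of `PartnerWindows`). For the orbits see the tool of helper760 (`N760/IT`).
-/

set_option autoImplicit false

namespace Pool.Agent.Results.MP_4a0cc8_nt.TotientOrbits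

open Filter
open Pool.Agent.N733.TG (LM Expanding lm_totient lm_sigma expanding_pow)
open Pool.Agent.N760.IT (orb lm_id orbit_windows)
open Pool.Agent.N826.IT.Orb (AlmostAll almostAll_mono)
open NumberField
open Pool.Agent.Results.MP_4a0cc8_nt.FewPartnersAllLevels (Congruent jInvariant)
open Pool.Agent.Results.MP_4a0cc8_nt.PartnerWindows (Partners partners_count)

/-- **No congruences near the orbits of Euler's function.** `orb f k m` is `f(φ_k(m))`, `φ_k` the `k`-th iterate of Euler's
function. For all `n`, `D ≥ 1` and `0 ≤ θ < 1` there is `n₀` such that for all `f` multiplicative and positive, of at most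
polynomial growth, with `f p ≤ M p` at the large primes and injective there, all `G` with steps `≥ a > 0` and growth at most
`v ^ D`, all number fields `K` of degree `n` and all elliptic curves `E₀ : y² = x³ + A₀x + B₀` with `A₀`, `B₀` integral there
is `J(m)` tending to infinity such that for almost all `m` (all `m ≤ N` but `o(N)`), for all `k ≤ J(m)`, NO elliptic curve
`E : y² = x³ + Ax + B` over `K` with `|H(j(E)) - G (f(φ_k m))| ≤ f(φ_k m) ^ θ` satisfies `E[l] ≅ E₀[l]` for some `l ≥ n₀`. The
identity, Euler's function and the sum of the divisors are examples of such functions `f`, and `α v ^ D` with `α > 0`,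
`D ≥ 1` is an example of `G`. -/
theorem result :
    (∀ (n : ℕ) (D θ : ℝ), 1 ≤ D → 0 ≤ θ → θ < 1 → ∃ n₀ : ℕ, ∀ f : ℕ → ℕ, LM f → ∀ G : ℕ → ℝ, Expanding G D →
      ∀ (K : Type) [Field K] [NumberField K], Module.finrank ℚ K = n → ∀ A₀ B₀ : 𝓞 K, 4 * A₀ ^ 3 + 27 * B₀ ^ 2 ≠ 0 →
      ∃ J : ℕ → ℕ, Tendsto J atTop atTop ∧ AlmostAll (fun m => ∀ k ≤ J m, ∀ A B : K, 4 * A ^ 3 + 27 * B ^ 2 ≠ 0 →
        |Height.mulHeight₁ (jInvariant A B) - G (orb f k m)| ≤ (orb f k m : ℝ) ^ θ →
          ∀ l : ℕ, n₀ ≤ l → ¬ Congruent l A B (A₀ : K) (B₀ : K))) ∧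
    (LM (fun m => m) ∧ LM Nat.totient ∧ LM (fun m => ∑ d ∈ m.divisors, d)) ∧
    ∀ α D : ℝ, 0 < α → 1 ≤ D → Expanding (fun v => α * (v : ℝ) ^ D) D := by
  refine ⟨fun n D θ hD hθ hθ1 => ?_, ⟨lm_id, lm_totient, lm_sigma⟩, fun α D hα hD => expanding_pow hα hD⟩
  obtain ⟨ε, hε⟩ : ∃ ε, ε = (1 - θ) / (2 * D) := ⟨_, rfl⟩
  have hε0 : 0 < ε := by
    rw [hε]
    apply div_pos (by linarith) (by linarith)
  have hεD : D * ε = (1 - θ) / 2 := by
    rw [hε]
    field_simp
  obtain ⟨n₀, h⟩ := partners_count n ε hε0
  refine ⟨n₀, fun f hf G hG K _ _ hK A₀ B₀ h0 => ?_⟩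
  obtain ⟨C, hC, h'⟩ := h K hK A₀ B₀ h0
  obtain ⟨J, hJ, hJ2⟩ := orbit_windows (Partners n₀ (A₀ : K) (B₀ : K)) (fun x => Height.mulHeight₁ x) hf hG (s := ε)
    (κ := θ) hε0.le hθ (by rw [hεD]; linarith) (fun η hη => by
      refine ⟨C, fun X hX => ⟨(h' X hX).1, (h' X hX).2.trans ?_⟩⟩
      apply mul_le_mul_of_nonneg_left _ hC
      exact Real.rpow_le_rpow_of_exponent_le hX (by linarith))
  refine ⟨J, hJ, almostAll_mono hJ2 (fun m hm k hk A B hAB hw l hl hcon => ?_)⟩
  exact hm k hk (jInvariant A B) ⟨A, B, hAB, rfl, l, hl, hcon⟩ hw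

end Pool.Agent.Results.MP_4a0cc8_nt.TotientOrbits
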